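import Pool.Agent.Helper93.KS.St

/-!
# Project KS, module SEC: second moment of the elementary symmetric functions
-/

set_option autoImplicit false

namespace Pool.Agent.Helper36.KS

open Finset Filter Topology Pool.Agent.Helper93.KS
open Pool.Agent.Helper15.AB (ee Kl StDB StMT)
open Pool.Agent.Helper9.TW (gm Qs fm StMER StC9)
open Pool.Agent.Helper18.TR (StLevel)
open Pool.Agent.Helper93.KP (gk vk tk rn gn TK qk StC8P StVLP StRTS StWEI)

/-! ### the values of `sx` -/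

private lemma rn_cases (n p : ℕ) (hp : p.Prime) (h7 : 7 ≤ p) (hd : ¬ (p : ℤ) ∣ (n : ℤ) ^ 2 - 4) :
    rn n p = 0 ∨ rn n p = 2 := by
  have : Fact p.Prime := ⟨hp⟩
  have : NeZero p := ⟨hp.ne_zero⟩
  classical
  set R : Finset (ZMod p) := univ.filter (fun x : ZMod p => 30 * x * n - (30 * x) ^ 2 - 1 = 0) with hR
  have hcast : ∀ r : ℕ, (p : ℤ) ∣ gk n (30 * r) ↔
      30 * (r : ZMod p) * n - (30 * (r : ZMod p)) ^ 2 - 1 = 0 := by
    intro r
    rw [← ZMod.intCast_zmod_eq_zero_iff_dvd]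
    unfold gk
    push_cast
    rfl
  have hcard : rn n p = R.card := by
    unfold rn
    apply Finset.card_bij (fun (r : ℕ) _ => (r : ZMod p))
    · intro r hr
      rw [hR, mem_filter]
      exact ⟨mem_univ _, (hcast r).1 (mem_filter.1 hr).2⟩
    · intro r hr t ht hrt
      have h1 := mem_range.1 (mem_filter.1 hr).1
      have h2 := mem_range.1 (mem_filter.1 ht).1
      rw [ZMod.natCast_eq_natCast_iff', Nat.mod_eq_of_lt h1, Nat.mod_eq_of_lt h2] at hrt
      exact hrt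
    · intro x hx
      refine ⟨x.val, ?_, ZMod.natCast_zmod_val x⟩
      rw [mem_filter, mem_range]
      refine ⟨ZMod.val_lt x, (hcast _).2 ?_⟩
      rw [ZMod.natCast_zmod_val]
      exact (mem_filter.1 hx).2
  rw [hcard]
  rcases R.eq_empty_or_nonempty with h0 | ⟨x0, hx0⟩
  · left
    rw [h0, card_empty]
  right
  have h30 : (30 : ZMod p) ≠ 0 := by
    intro h
    have h1 : ((30 : ℕ) : ZMod p) = 0 := by exact_mod_cast h
    rw [ZMod.natCast_eq_zero_iff] at h1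
    have h2 : p ∣ 2 * (3 * 5) := by norm_num; exact h1
    rcases (hp.dvd_mul).1 h2 with h3 | h3
    · have := Nat.le_of_dvd (by norm_num) h3
      omega
    · rcases (hp.dvd_mul).1 h3 with h4 | h4
      · have := Nat.le_of_dvd (by norm_num) h4
        omega
      · have := Nat.le_of_dvd (by norm_num) h4
        omega
  have e0 : 30 * x0 * n - (30 * x0) ^ 2 - 1 = 0 := (mem_filter.1 hx0).2
  have hi : (30 : ZMod p) * (30 : ZMod p)⁻¹ = 1 := mul_inv_cancel₀ h30
  set x1 : ZMod p := n * (30 : ZMod p)⁻¹ - x0 with hx1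
  have h30x1 : 30 * x1 = n - 30 * x0 := by
    rw [hx1]
    linear_combination (n : ZMod p) * hi
  have hne : x0 ≠ x1 := by
    intro h
    apply hd
    rw [← ZMod.intCast_zmod_eq_zero_iff_dvd]
    push_cast
    rw [← h] at h30x1
    linear_combination 4 * e0 + (60 * x0 - n) * h30x1
  have hRe : R = {x0, x1} := by
    ext x
    rw [hR, mem_filter, mem_insert, mem_singleton]
    constructor
    · rintro ⟨-, hx⟩
      by_cases h : x = x0
      · exact Or.inl h
      · right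
        have h1 : (x - x0) * (30 * (x - x1)) = 0 := by
          have h2 : 30 * ((x - x0) * (30 * (x - x1))) = 0 := by
            linear_combination e0 - hx - 30 * (x - x0) * h30x1
          exact (mul_eq_zero.1 h2).resolve_left h30
        rcases mul_eq_zero.1 h1 with h2 | h2
        · exact absurd (sub_eq_zero.1 h2) h
        · exact sub_eq_zero.1 ((mul_eq_zero.1 h2).resolve_left h30)
    · rintro (h | h)
      · rw [h]
        exact ⟨mem_univ _, e0⟩
      · rw [h]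
        refine ⟨mem_univ _, ?_⟩
        rw [h30x1]
        linear_combination e0
  rw [hRe, card_pair hne]

private lemma sx_sq (n p : ℕ) (hp : p.Prime) (h7 : 7 ≤ p) : sx n p * sx n p = 1 := by
  unfold sx
  split_ifs with h
  · norm_num
  · rcases rn_cases n p hp h7 h with h1 | h1
    · rw [h1]; norm_num
    · rw [h1]; norm_num

/-! ### the generating function -/

private lemma symm_ins {q : ℕ} {T T' : Finset ℕ} (h : q ∉ T) (h' : q ∉ T') :
    symmDiff T (insert q T') = insert q (symmDiff T T') ∧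
    symmDiff (insert q T) T' = insert q (symmDiff T T') ∧
    symmDiff (insert q T) (insert q T') = symmDiff T T' ∧ q ∉ symmDiff T T' := by
  refine ⟨?_, ?_, ?_, ?_⟩
  · ext y
    simp only [Finset.mem_symmDiff, Finset.mem_insert]
    by_cases hy : y = q
    · subst hy; tauto
    · tauto
  · ext y
    simp only [Finset.mem_symmDiff, Finset.mem_insert]
    by_cases hy : y = q
    · subst hy; tauto
    · tauto
  · ext y
    simp only [Finset.mem_symmDiff, Finset.mem_insert]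
    by_cases hy : y = q
    · subst hy; tauto
    · tauto
  · simp only [Finset.mem_symmDiff]
    tauto

private def wt (x c : ℕ → ℝ) (u : ℝ) (T T' : Finset ℕ) : ℝ :=
  u ^ T.card * u ^ T'.card * ((∏ p ∈ T, x p) * (∏ p ∈ T', x p) * ∏ p ∈ symmDiff T T', c p)

private lemma wt_ins (x c : ℕ → ℝ) (u : ℝ) {q : ℕ} {T T' : Finset ℕ} (h : q ∉ T) (h' : q ∉ T') :
    wt x c u T (insert q T') = u * x q * c q * wt x c u T T' ∧
    wt x c u (insert q T) T' = u * x q * c q * wt x c u T T' ∧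
    wt x c u (insert q T) (insert q T') = u ^ 2 * x q ^ 2 * wt x c u T T' := by
  obtain ⟨s1, s2, s3, s4⟩ := symm_ins h h'
  unfold wt
  rw [s1, s2, s3, card_insert_of_notMem h, card_insert_of_notMem h', prod_insert h, prod_insert h',
    prod_insert s4]
  refine ⟨?_, ?_, ?_⟩ <;> ring

private lemma gen (S : Finset ℕ) (x c : ℕ → ℝ) (u : ℝ) :
    ∑ T ∈ S.powerset, ∑ T' ∈ S.powerset, wt x c u T T' =
      ∏ p ∈ S, (1 + 2 * u * x p * c p + u ^ 2 * x p ^ 2) := by
  induction S using Finset.induction_on with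
  | empty => simp [wt]
  | insert q S hq ih =>
    rw [sum_powerset_insert hq, prod_insert hq, ← ih]
    have hn : ∀ T ∈ S.powerset, q ∉ T := fun T hT h => hq (mem_powerset.1 hT h)
    have e1 : ∀ T ∈ S.powerset, ∑ T' ∈ (insert q S).powerset, wt x c u T T' =
        (1 + u * x q * c q) * ∑ T' ∈ S.powerset, wt x c u T T' := by
      intro T hT
      rw [sum_powerset_insert hq, add_mul, one_mul, mul_sum]
      congr 1
      exact sum_congr rfl fun T' hT' => (wt_ins x c u (hn T hT) (hn T' hT')).1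
    have e2 : ∀ T ∈ S.powerset, ∑ T' ∈ (insert q S).powerset, wt x c u (insert q T) T' =
        (u * x q * c q + u ^ 2 * x q ^ 2) * ∑ T' ∈ S.powerset, wt x c u T T' := by
      intro T hT
      rw [sum_powerset_insert hq, add_mul, mul_sum, mul_sum]
      congr 1
      · exact sum_congr rfl fun T' hT' => (wt_ins x c u (hn T hT) (hn T' hT')).2.1
      · exact sum_congr rfl fun T' hT' => (wt_ins x c u (hn T hT) (hn T' hT')).2.2
    rw [sum_congr rfl e1, sum_congr rfl e2, ← mul_sum, ← mul_sum]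
    ring

/-- the bound for pairs of sets of `m` elements -/
private lemma pairs_bound (S : Finset ℕ) (x c : ℕ → ℝ) (u : ℝ) (m : ℕ) (hx : ∀ p, 0 ≤ x p)
    (hc : ∀ p, 0 ≤ c p) (hu : 0 < u) :
    u ^ (2 * m) * ∑ T ∈ S.powersetCard m, ∑ T' ∈ S.powersetCard m,
      ((∏ p ∈ T, x p) * (∏ p ∈ T', x p) * ∏ p ∈ symmDiff T T', c p) ≤
      Real.exp (2 * u * (∑ p ∈ S, x p * c p) + u ^ 2 * ∑ p ∈ S, x p ^ 2) := by
  have hw : ∀ T T', 0 ≤ wt x c u T T' := by
    intro T T'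
    unfold wt
    have h1 : 0 ≤ ∏ p ∈ T, x p := prod_nonneg fun p _ => hx p
    have h2 : 0 ≤ ∏ p ∈ T', x p := prod_nonneg fun p _ => hx p
    have h3 : 0 ≤ ∏ p ∈ symmDiff T T', c p := prod_nonneg fun p _ => hc p
    positivity
  have hsub : S.powersetCard m ⊆ S.powerset := fun T hT => mem_powerset.2 (mem_powersetCard.1 hT).1
  have h1 : u ^ (2 * m) * ∑ T ∈ S.powersetCard m, ∑ T' ∈ S.powersetCard m,
      ((∏ p ∈ T, x p) * (∏ p ∈ T', x p) * ∏ p ∈ symmDiff T T', c p) =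
      ∑ T ∈ S.powersetCard m, ∑ T' ∈ S.powersetCard m, wt x c u T T' := by
    rw [mul_sum]
    refine sum_congr rfl fun T hT => ?_
    rw [mul_sum]
    refine sum_congr rfl fun T' hT' => ?_
    unfold wt
    rw [(mem_powersetCard.1 hT).2, (mem_powersetCard.1 hT').2, two_mul, pow_add]
  rw [h1]
  have h2 : ∑ T ∈ S.powersetCard m, ∑ T' ∈ S.powersetCard m, wt x c u T T' ≤
      ∑ T ∈ S.powerset, ∑ T' ∈ S.powerset, wt x c u T T' := by
    refine (sum_le_sum fun T _ => sum_le_sum_of_subset_of_nonneg hsub fun T' _ _ => hw T T').trans ?_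
    exact sum_le_sum_of_subset_of_nonneg hsub fun T _ _ => sum_nonneg fun T' _ => hw T T'
  refine h2.trans ?_
  rw [gen]
  have h3 : 2 * u * (∑ p ∈ S, x p * c p) + u ^ 2 * ∑ p ∈ S, x p ^ 2 =
      ∑ p ∈ S, (2 * u * x p * c p + u ^ 2 * x p ^ 2) := by
    rw [mul_sum, mul_sum, ← sum_add_distrib]
    exact sum_congr rfl fun p _ => by ring
  rw [h3, Real.exp_sum]
  refine prod_le_prod (fun p _ => ?_) fun p _ => ?_
  · have := hx p
    have := hc p
    positivity
  · have := Real.add_one_le_exp (2 * u * x p * c p + u ^ 2 * x p ^ 2)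
    linarith

/-! ### sums over integers -/

private lemma tele (φ g : ℕ → ℝ) (A M : ℕ) (hAM : A ≤ M)
    (h : ∀ p, A ≤ p → g p ≤ φ p - φ (p + 1)) : ∑ p ∈ Ico A M, g p ≤ φ A - φ M := by
  induction M, hAM using Nat.le_induction with
  | base => simp
  | succ M hM ih =>
    rw [sum_Ico_succ_top hM]
    have := h M hM
    linarith

private lemma sqrt_step (t : ℝ) (ht : 1 ≤ t) : 1 / √t ≤ 2 * (√t - √(t - 1)) := by
  have h0 : 0 < √t := Real.sqrt_pos.2 (by linarith)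
  have h1 : 0 ≤ √(t - 1) := Real.sqrt_nonneg _
  have h2 : √(t - 1) ≤ √t := Real.sqrt_le_sqrt (by linarith)
  have h3 : √t * √t = t := Real.mul_self_sqrt (by linarith)
  have h4 : √(t - 1) * √(t - 1) = t - 1 := Real.mul_self_sqrt (by linarith)
  rw [div_le_iff₀ h0]
  nlinarith [sq_nonneg (√t - √(t - 1))]

private lemma sums (P P₂ : ℝ) (S : Finset ℕ) (hP : 7 ≤ P) (hPP : P ≤ P₂)
    (hS : ∀ p ∈ S, P ≤ (p : ℝ) ∧ (p : ℝ) ≤ P₂) :
    ∑ p ∈ S, (1 / (p : ℝ)) ^ 2 ≤ 2 / P ∧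
    ∑ p ∈ S, 1 / (p : ℝ) * (√(p : ℝ))⁻¹ ≤ 4 / √P ∧
    ∑ p ∈ S, 1 / (p : ℝ) * √(p : ℝ) ≤ 4 * √P₂ := by
  set A : ℕ := ⌈P⌉₊ with hA
  set M : ℕ := ⌊P₂⌋₊ + 1 with hM
  have hAP : P ≤ (A : ℝ) := Nat.le_ceil P
  have hA7 : (7 : ℝ) ≤ A := hP.trans hAP
  have hMP : ((M : ℝ) - 1) ≤ P₂ := by
    rw [hM]
    push_cast
    have := Nat.floor_le (by linarith : (0 : ℝ) ≤ P₂)
    linarith
  have hsub : S ⊆ Ico A M := by
    intro p hp
    obtain ⟨h1, h2⟩ := hS p hp
    rw [mem_Ico]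
    exact ⟨Nat.ceil_le.2 h1, Nat.lt_succ_of_le (Nat.le_floor h2)⟩
  rcases S.eq_empty_or_nonempty with h0 | ⟨p0, hp0⟩
  · rw [h0]
    simp only [sum_empty]
    refine ⟨by positivity, by positivity, by positivity⟩
  have hAM : A ≤ M := by
    have := mem_Ico.1 (hsub hp0)
    omega
  have hge : ∀ p : ℕ, A ≤ p → (7 : ℝ) ≤ p := by
    intro p hp
    have : (A : ℝ) ≤ p := by exact_mod_cast hp
    linarith
  have hM1 : (0 : ℝ) < (M : ℝ) - 1 := by
    have : (A : ℝ) ≤ M := by exact_mod_cast hAM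
    linarith
  refine ⟨?_, ?_, ?_⟩
  · have h1 := tele (fun p => 1 / ((p : ℝ) - 1)) (fun p => (1 / (p : ℝ)) ^ 2) A M hAM (by
      intro p hp
      have h7 := hge p hp
      have e : ((p + 1 : ℕ) : ℝ) - 1 = p := by push_cast; ring
      show (1 / (p : ℝ)) ^ 2 ≤ 1 / ((p : ℝ) - 1) - 1 / (((p + 1 : ℕ) : ℝ) - 1)
      rw [e, div_sub_div _ _ (by linarith) (by linarith), div_pow, div_le_div_iff₀ (by positivity)
        (mul_pos (by linarith) (by linarith))]
      nlinarith)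
    refine (sum_le_sum_of_subset_of_nonneg hsub fun p _ _ => by positivity).trans (h1.trans ?_)
    have h2 : (0 : ℝ) ≤ 1 / ((M : ℝ) - 1) := by positivity
    have h3 : 1 / ((A : ℝ) - 1) ≤ 2 / P := by
      rw [div_le_div_iff₀ (by linarith) (by linarith)]
      linarith
    linarith
  · have h1 := tele (fun p => 2 / √((p : ℝ) - 1)) (fun p => 1 / (p : ℝ) * (√(p : ℝ))⁻¹) A M hAM (by
      intro p hp
      have h7 := hge p hp
      have e : ((p + 1 : ℕ) : ℝ) - 1 = p := by push_cast; ring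
      show 1 / (p : ℝ) * (√(p : ℝ))⁻¹ ≤ 2 / √((p : ℝ) - 1) - 2 / √(((p + 1 : ℕ) : ℝ) - 1)
      rw [e]
      have k0 : 0 < √(p : ℝ) := Real.sqrt_pos.2 (by linarith)
      have k1 : 0 < √((p : ℝ) - 1) := Real.sqrt_pos.2 (by linarith)
      have k2 : √((p : ℝ) - 1) ≤ √(p : ℝ) := Real.sqrt_le_sqrt (by linarith)
      have k3 : √(p : ℝ) * √(p : ℝ) = p := Real.mul_self_sqrt (by linarith)
      have k5 := sqrt_step p (by linarith)
      have e2 : 2 / √((p : ℝ) - 1) - 2 / √(p : ℝ) =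
          2 * (√(p : ℝ) - √((p : ℝ) - 1)) / (√((p : ℝ) - 1) * √(p : ℝ)) := by
        field_simp
      rw [e2]
      have e3 : 1 / (p : ℝ) * (√(p : ℝ))⁻¹ = 1 / √(p : ℝ) / (√(p : ℝ) * √(p : ℝ)) := by
        rw [k3]
        field_simp
      rw [e3]
      apply div_le_div₀ _ k5 (by positivity) (mul_le_mul_of_nonneg_right k2 k0.le)
      linarith)
    refine (sum_le_sum_of_subset_of_nonneg hsub fun p _ _ => by positivity).trans (h1.trans ?_)
    have h2 : (0 : ℝ) ≤ 2 / √((M : ℝ) - 1) := by positivity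
    have h3 : 2 / √((A : ℝ) - 1) ≤ 4 / √P := by
      have k0 : 0 < √P := Real.sqrt_pos.2 (by linarith)
      have k1 : 0 < √((A : ℝ) - 1) := Real.sqrt_pos.2 (by linarith)
      have k2 : √P ≤ 2 * √((A : ℝ) - 1) := by
        have k3 : (2 : ℝ) * √((A : ℝ) - 1) = √(4 * ((A : ℝ) - 1)) := by
          rw [Real.sqrt_mul (by norm_num), show (4 : ℝ) = 2 ^ 2 by norm_num,
            Real.sqrt_sq (by norm_num)]
        rw [k3]
        exact Real.sqrt_le_sqrt (by linarith)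
      rw [div_le_div_iff₀ k1 k0]
      linarith
    linarith
  · have h1 := tele (fun p => -(2 * √((p : ℝ) - 1))) (fun p => 1 / (p : ℝ) * √(p : ℝ)) A M hAM (by
      intro p hp
      have h7 := hge p hp
      have e : ((p + 1 : ℕ) : ℝ) - 1 = p := by push_cast; ring
      show 1 / (p : ℝ) * √(p : ℝ) ≤ -(2 * √((p : ℝ) - 1)) - -(2 * √(((p + 1 : ℕ) : ℝ) - 1))
      rw [e]
      have k5 := sqrt_step p (by linarith)
      have e3 : 1 / (p : ℝ) * √(p : ℝ) = 1 / √(p : ℝ) := by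
        rw [one_div_mul_eq_div, Real.sqrt_div_self']
      rw [e3]
      linarith)
    refine (sum_le_sum_of_subset_of_nonneg hsub fun p _ _ => by positivity).trans (h1.trans ?_)
    have h2 : √((M : ℝ) - 1) ≤ √P₂ := Real.sqrt_le_sqrt hMP
    have h3 : 0 ≤ √((A : ℝ) - 1) := Real.sqrt_nonneg _
    have h4 : 0 ≤ √P₂ := Real.sqrt_nonneg _
    show -(2 * √((A : ℝ) - 1)) - -(2 * √((M : ℝ) - 1)) ≤ 4 * √P₂
    linarith

/-! ### the main argument -/

private lemma prod_symm (f : ℕ → ℝ) (T T' : Finset ℕ) (h : ∀ p ∈ T ∩ T', f p * f p = 1) :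
    (∏ p ∈ T, f p) * ∏ p ∈ T', f p = ∏ p ∈ symmDiff T T', f p := by
  have h1 := prod_inter_mul_prod_sdiff T T' f
  have h2 := prod_inter_mul_prod_sdiff T' T f
  have h3 : (∏ p ∈ T ∩ T', f p) * ∏ p ∈ T' ∩ T, f p = 1 := by
    rw [inter_comm T' T, ← prod_mul_distrib]
    exact prod_eq_one h
  have h4 : symmDiff T T' = (T \ T') ∪ (T' \ T) := rfl
  have h5 : Disjoint (T \ T') (T' \ T) := disjoint_sdiff_sdiff
  rw [h4, prod_union h5, ← h1, ← h2]
  linear_combination (∏ p ∈ T \ T', f p) * (∏ p ∈ T' \ T, f p) * h3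

private lemma sqrt_prod (F : Finset ℕ) :
    √((∏ p ∈ F, p : ℕ) : ℝ) = ∏ p ∈ F, √(p : ℝ) := by
  induction F using Finset.induction_on with
  | empty => simp
  | insert q F hq ih =>
    rw [prod_insert hq, prod_insert hq, Nat.cast_mul, Real.sqrt_mul (Nat.cast_nonneg q), ih]

/-- the bound for one pair of sets -/
private lemma one_pair (hC : StCHS) (N m : ℕ) (P₂ : ℝ) (F : Finset ℕ) (hF : F.card ≤ 2 * m)
    (hP₂ : 1 ≤ P₂) (hF' : ∀ p ∈ F, p.Prime ∧ 7 ≤ p ∧ (p : ℝ) ≤ P₂) :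
    |∑ n ∈ Ioc N (2 * N), ∏ p ∈ F, sx n p| ≤ 4 ^ (2 * m) * (N * ∏ p ∈ F, (√(p : ℝ))⁻¹ +
      (1 + 2 * m) * (1 + Real.log P₂) * ∏ p ∈ F, √(p : ℝ)) := by
  have h1 := hC F N N fun p hp => ⟨(hF' p hp).1, (hF' p hp).2.1⟩
  rw [← two_mul] at h1
  have hlog : 0 ≤ Real.log P₂ := Real.log_nonneg hP₂
  have hpos : ∀ p ∈ F, (0 : ℝ) < p := fun p hp => by
    have := (hF' p hp).1.pos
    exact_mod_cast this
  have hQ : (0 : ℝ) < ((∏ p ∈ F, p : ℕ) : ℝ) := by
    have : 0 < ∏ p ∈ F, p := prod_pos fun p hp => (hF' p hp).1.pos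
    exact_mod_cast this
  have hsq : 0 < √((∏ p ∈ F, p : ℕ) : ℝ) := Real.sqrt_pos.2 hQ
  have e1 : √((∏ p ∈ F, p : ℕ) : ℝ) * ((N : ℝ) / (∏ p ∈ F, p : ℕ)) =
      N * ∏ p ∈ F, (√(p : ℝ))⁻¹ := by
    rw [prod_inv_distrib, ← sqrt_prod, mul_div_left_comm, Real.sqrt_div_self', one_div]
  have e2 : Real.log ((∏ p ∈ F, p : ℕ) : ℝ) ≤ 2 * m * Real.log P₂ := by
    rw [Nat.cast_prod, Real.log_prod (fun p hp => (hpos p hp).ne')]
    have : ∑ p ∈ F, Real.log (p : ℝ) ≤ F.card • Real.log P₂ :=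
      sum_le_card_nsmul _ _ _ fun p hp => Real.log_le_log (hpos p hp) (hF' p hp).2.2
    refine this.trans ?_
    rw [nsmul_eq_mul]
    have h2 : (F.card : ℝ) ≤ 2 * m := by exact_mod_cast hF
    exact mul_le_mul_of_nonneg_right h2 hlog
  refine h1.trans ?_
  have h4 : (4 : ℝ) ^ F.card ≤ 4 ^ (2 * m) := pow_le_pow_right₀ (by norm_num) hF
  have h5 : √((∏ p ∈ F, p : ℕ) : ℝ) * ((N : ℝ) / (∏ p ∈ F, p : ℕ) + 1 +
      Real.log ((∏ p ∈ F, p : ℕ) : ℝ)) ≤ N * ∏ p ∈ F, (√(p : ℝ))⁻¹ +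
      (1 + 2 * m) * (1 + Real.log P₂) * ∏ p ∈ F, √(p : ℝ) := by
    rw [← sqrt_prod, mul_add, mul_add, e1, add_assoc]
    gcongr
    have hm : (0 : ℝ) ≤ m := Nat.cast_nonneg m
    have : 1 + Real.log ((∏ p ∈ F, p : ℕ) : ℝ) ≤ (1 + 2 * m) * (1 + Real.log P₂) := by
      nlinarith
    have := mul_le_mul_of_nonneg_left this hsq.le
    linarith
  have h6 : 0 ≤ √((∏ p ∈ F, p : ℕ) : ℝ) * ((N : ℝ) / (∏ p ∈ F, p : ℕ) + 1 +
      Real.log ((∏ p ∈ F, p : ℕ) : ℝ)) := by
    have : 0 ≤ Real.log ((∏ p ∈ F, p : ℕ) : ℝ) := by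
      apply Real.log_nonneg
      have : 1 ≤ ∏ p ∈ F, p := prod_pos fun p hp => (hF' p hp).1.pos
      exact_mod_cast this
    positivity
  rw [mul_assoc]
  exact mul_le_mul h4 h5 h6 (by positivity)

theorem hSEC (hC : StCHS) : StSEC := by
  intro m hm
  refine ⟨4 ^ (2 * m) * (1 + 2 * m) * Real.exp 10, by positivity, fun N P P₂ S hN hP hPP hS => ?_⟩
  have hP₂ : 7 ≤ P₂ := hP.trans hPP
  have hlog : 0 ≤ Real.log P₂ := Real.log_nonneg (by linarith)
  have h7 : ∀ p ∈ S, 7 ≤ p := fun p hp => by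
    have : (7 : ℝ) ≤ p := hP.trans (hS p hp).2.1
    exact_mod_cast this
  obtain ⟨d1, d2, d3⟩ := sums P P₂ S hP hPP fun p hp => (hS p hp).2
  set X : Finset ℕ → ℝ := fun T => ∏ p ∈ T, 1 / (p : ℝ) with hX
  have hX0 : ∀ T, 0 ≤ X T := fun T => prod_nonneg fun p _ => by positivity
  -- expansion of the square
  have hexp : ∑ n ∈ Ioc N (2 * N), (∑ T ∈ S.powersetCard m, ∏ p ∈ T, sx n p / p) ^ 2 =
      ∑ T ∈ S.powersetCard m, ∑ T' ∈ S.powersetCard m, X T * X T' *
        ∑ n ∈ Ioc N (2 * N), ∏ p ∈ symmDiff T T', sx n p := by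
    have e1 : ∀ n, (∑ T ∈ S.powersetCard m, ∏ p ∈ T, sx n p / p) ^ 2 =
        ∑ T ∈ S.powersetCard m, ∑ T' ∈ S.powersetCard m, X T * X T' *
          ∏ p ∈ symmDiff T T', sx n p := by
      intro n
      rw [sq, sum_mul_sum]
      refine sum_congr rfl fun T hT => sum_congr rfl fun T' hT' => ?_
      have hT1 := (mem_powersetCard.1 hT).1
      rw [← prod_symm (fun p => sx n p) T T' fun p hp => sx_sq n p (hS p (hT1 (mem_inter.1 hp).1)).1
        (h7 p (hT1 (mem_inter.1 hp).1))]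
      simp only [hX, div_eq_mul_one_div (sx n _), prod_mul_distrib]
      ring
    rw [sum_congr rfl fun n _ => e1 n, sum_comm]
    refine sum_congr rfl fun T _ => ?_
    rw [sum_comm]
    refine sum_congr rfl fun T' _ => ?_
    rw [mul_sum]
  rw [hexp]
  -- the two sums
  set S1 : ℝ := ∑ T ∈ S.powersetCard m, ∑ T' ∈ S.powersetCard m,
      (X T * X T' * ∏ p ∈ symmDiff T T', (√(p : ℝ))⁻¹) with hS1
  set S2 : ℝ := ∑ T ∈ S.powersetCard m, ∑ T' ∈ S.powersetCard m,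
      (X T * X T' * ∏ p ∈ symmDiff T T', √(p : ℝ)) with hS2
  have hb : ∑ T ∈ S.powersetCard m, ∑ T' ∈ S.powersetCard m, X T * X T' *
        ∑ n ∈ Ioc N (2 * N), ∏ p ∈ symmDiff T T', sx n p ≤
      4 ^ (2 * m) * (N * S1 + (1 + 2 * m) * (1 + Real.log P₂) * S2) := by
    have e1 : 4 ^ (2 * m) * (N * S1 + (1 + 2 * m) * (1 + Real.log P₂) * S2) =
        ∑ T ∈ S.powersetCard m, ∑ T' ∈ S.powersetCard m, X T * X T' * (4 ^ (2 * m) *
          (N * ∏ p ∈ symmDiff T T', (√(p : ℝ))⁻¹ +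
            (1 + 2 * m) * (1 + Real.log P₂) * ∏ p ∈ symmDiff T T', √(p : ℝ))) := by
      rw [hS1, hS2, mul_sum, mul_sum, ← sum_add_distrib, mul_sum]
      refine sum_congr rfl fun T _ => ?_
      rw [mul_sum, mul_sum, ← sum_add_distrib, mul_sum]
      refine sum_congr rfl fun T' _ => ?_
      ring
    rw [e1]
    refine sum_le_sum fun T hT => sum_le_sum fun T' hT' => ?_
    obtain ⟨hT1, hT2⟩ := mem_powersetCard.1 hT
    obtain ⟨hT3, hT4⟩ := mem_powersetCard.1 hT'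
    refine mul_le_mul_of_nonneg_left ?_ (mul_nonneg (hX0 T) (hX0 T'))
    refine (le_abs_self _).trans (one_pair hC N m P₂ _ ?_ (by linarith) ?_)
    · have h4 : symmDiff T T' ⊆ T ∪ T' := by
        intro p hp
        rw [Finset.mem_symmDiff] at hp
        rw [mem_union]
        tauto
      have := card_le_card h4
      have h5 := card_union_le T T'
      omega
    · intro p hp
      have hpS : p ∈ S := by
        rw [Finset.mem_symmDiff] at hp
        rcases hp with hp | hp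
        · exact hT1 hp.1
        · exact hT3 hp.1
      exact ⟨(hS p hpS).1, h7 p hpS, (hS p hpS).2.2⟩
  refine hb.trans ?_
  have hPsq : 0 < √P := Real.sqrt_pos.2 (by linarith)
  have hP2sq : 0 < √P₂ := Real.sqrt_pos.2 (by linarith)
  have hPP' : √P * √P = P := Real.mul_self_sqrt (by linarith)
  have hPP2 : √P₂ * √P₂ = P₂ := Real.mul_self_sqrt (by linarith)
  have b1 : S1 ≤ Real.exp 10 * P ^ (-(m : ℝ)) := by
    have h := pairs_bound S (fun p => 1 / (p : ℝ)) (fun p => (√(p : ℝ))⁻¹) (√P) m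
      (fun p => by positivity) (fun p => by positivity) hPsq
    have e : √P ^ (2 * m) = P ^ m := by rw [pow_mul, sq, hPP']
    rw [e] at h
    have h2 : 2 * √P * (∑ p ∈ S, 1 / (p : ℝ) * (√(p : ℝ))⁻¹) + √P ^ 2 * ∑ p ∈ S, (1 / (p : ℝ)) ^ 2 ≤ 10 := by
      have h3 := mul_le_mul_of_nonneg_left d2 (by positivity : 0 ≤ 2 * √P)
      have h4 := mul_le_mul_of_nonneg_left d1 (by positivity : 0 ≤ √P ^ 2)
      have e3 : 2 * √P * (4 / √P) = 8 := by field_simp; norm_num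
      have e4 : √P ^ 2 * (2 / P) = 2 := by
        rw [sq, hPP']
        have : P ≠ 0 := by linarith
        field_simp
      linarith
    have h3 := h.trans (Real.exp_le_exp.2 h2)
    rw [Real.rpow_neg (by linarith), Real.rpow_natCast, ← div_eq_mul_inv, le_div_iff₀ (by positivity)]
    linarith
  have b2 : S2 ≤ Real.exp 10 * P₂ ^ m := by
    have h := pairs_bound S (fun p => 1 / (p : ℝ)) (fun p => √(p : ℝ)) (√P₂)⁻¹ m
      (fun p => by positivity) (fun p => by positivity) (by positivity)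
    have e : (√P₂)⁻¹ ^ (2 * m) = (P₂ ^ m)⁻¹ := by rw [inv_pow, pow_mul, sq, hPP2]
    rw [e] at h
    have h2 : 2 * (√P₂)⁻¹ * (∑ p ∈ S, 1 / (p : ℝ) * √(p : ℝ)) +
        (√P₂)⁻¹ ^ 2 * ∑ p ∈ S, (1 / (p : ℝ)) ^ 2 ≤ 10 := by
      have h3 := mul_le_mul_of_nonneg_left d3 (by positivity : 0 ≤ 2 * (√P₂)⁻¹)
      have h4 := mul_le_mul_of_nonneg_left d1 (by positivity : 0 ≤ (√P₂)⁻¹ ^ 2)
      have e3 : 2 * (√P₂)⁻¹ * (4 * √P₂) = 8 := by field_simp; norm_num
      have e4 : (√P₂)⁻¹ ^ 2 * (2 / P) ≤ 2 := by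
        rw [inv_pow, sq, hPP2]
        have h5 : P₂⁻¹ ≤ 1 := inv_le_one_of_one_le₀ (by linarith)
        have h6 : 2 / P ≤ 2 := by
          rw [div_le_iff₀ (by linarith)]
          linarith
        have h7 : 0 ≤ 2 / P := by positivity
        calc P₂⁻¹ * (2 / P) ≤ 1 * (2 / P) := mul_le_mul_of_nonneg_right h5 h7
          _ ≤ 2 := by linarith
      linarith
    have h3 := h.trans (Real.exp_le_exp.2 h2)
    rw [inv_mul_le_iff₀ (by positivity)] at h3
    linarith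
  have hm0 : (0 : ℝ) ≤ m := Nat.cast_nonneg m
  have hN0 : (0 : ℝ) ≤ N := Nat.cast_nonneg N
  have hPm : 0 ≤ P ^ (-(m : ℝ)) := Real.rpow_nonneg (by linarith) _
  have hPm2 : 0 ≤ P₂ ^ m := pow_nonneg (by linarith) _
  have f1 : (N : ℝ) * S1 ≤ (1 + 2 * m) * (1 + Real.log P₂) * (Real.exp 10 * (N * P ^ (-(m : ℝ)))) := by
    have g1 := mul_le_mul_of_nonneg_left b1 hN0
    have g2 : 1 ≤ (1 + 2 * (m : ℝ)) * (1 + Real.log P₂) := by nlinarith
    have g3 : 0 ≤ Real.exp 10 * (N * P ^ (-(m : ℝ))) := by positivity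
    have g4 := mul_le_mul_of_nonneg_right g2 g3
    linarith
  have f2 := mul_le_mul_of_nonneg_left b2 (by positivity : 0 ≤ (1 + 2 * (m : ℝ)) * (1 + Real.log P₂))
  have f3 := mul_le_mul_of_nonneg_left (add_le_add f1 f2) (by positivity : (0 : ℝ) ≤ 4 ^ (2 * m))
  refine f3.trans (le_of_eq ?_)
  ring

end Pool.Agent.Helper36.KS
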